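import Pool.Agent.Mg.F8339a4.G7dbbd3
import Pool.Agent.Mg.F8339a4.Ga862ed
import Pool.Agent.Mg.F8339a4.G88eabe
import Pool.Agent.Mg.F8339a4.Gbdfcb2

/-! Finite point blow-up rates of the mass critical gKdV equation: single bubble solutions. -/

open MeasureTheory Filter Topology Set

namespace Pool.Agent.Results.MP_8339a4_an.SingleBubble

open Pool.Agent.MP_8339a4_an

theorem result (t0 ν : ℝ) (u ux : ℝ → ℝ → ℝ) (lam sig : ℝ → ℝ) (x0 : ℝ) (ht0 : 0 < t0)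
    (hν : 0 < ν) (hsol : IsSol (Ioc 0 t0) u ux) (hrate : PowerRate t0 ν ux)
    (hb : Bubble t0 u lam sig x0)
    (hs : (∫ x, u t0 x ^ 2) < 2 * ∫ y, Q y ^ 2 ∨
      (∃ r : ℝ → ℝ, MemLp r 2 volume ∧ Tendsto (fun t => ∫ z,
        (u t z - Q ((z - sig t) / lam t) / Real.sqrt (lam t) - r z) ^ 2) (𝓝[>] 0) (𝓝 0)) ∨
      Single u lam sig) :
    ν = 2 / 5 ∨ (3 / 7 < ν ∧ ν < 1 / 2) := by
  refine main_Glue p0 p1 p2 (gs (c1w c1) c2) t0 ν u ux lam sig x0 ht0 hν hsol hrate hb ?_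
  rcases hs with h | ⟨r, hr, h⟩ | h
  · exact Or.inl h
  · exact Or.inr (single_of_residue ht0 hsol hb hr h)
  · exact Or.inr h

end Pool.Agent.Results.MP_8339a4_an.SingleBubble
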